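import Pool.Agent.Helper45.L.Defs

/-!
# Project LN (MP_e66f84_ag): cyclic twists of an arbitrary curve with an automorphism of order `n`

`k` number field, `n ≥ 2` (no roots of unity are assumed in `k`), `K0 / k` the function field of a curve
`Y`, `h ∈ K0`, the curve `X : y ^ n = h` is a cyclic cover of `Y` of degree `n` over the algebraic
closure, of genus at least one.  Twists: `y ^ n = c h`, `c ∈ k* / k*ⁿ`.  Block statements (the definitions
without `n` are those of project L).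
-/

set_option autoImplicit false

namespace Pool.Agent.LN

open VC IntermediateField NumberField IsDedekindDomain Pool.Agent.SC Pool.Agent.Helper91.Sect
open Pool.Agent.HG (Pr nm)
open Pool.Agent.L (Inert FPair L0 MM SamePlace OverV cst)

noncomputable section

/-! ## The geometric situation -/

/-- `E` is the algebraic closure of `k`, `L0 = E K0` the function field of `Y` over `E`, `M = L0(r)`,
`r ^ n = h`, the function field of `X`, of degree `n` over `L0`, not rational, `U` its maximal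
unramified extension. -/
structure Geo (k K0 E U : Type) [Field k] [Field K0] [Field E] [Field U] [Algebra k K0]
    [Algebra k E] [Algebra E U] [Algebra K0 U] [Algebra k U] (n : ℕ) (h : K0) (r : U) : Prop where
  algE : Algebra.IsAlgebraic k E
  clE : IsAlgClosed E
  ff : IsFunctionField E (L0 E K0 (U := U))
  rpow : r ^ n = algebraMap K0 U h
  rnot : ∀ i : ℕ, 0 < i → i < n → r ^ i ∉ L0 E K0 (U := U)
  cover : IsCover (MM E K0 r)
  nonrat : ∀ y : MM E K0 r, IntermediateField.adjoin E {y} ≠ ⊤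
  normal : Normal K0 U

/-- the action on `U` of a section of (a curve over) the twist `y ^ n = c h` -/
structure Act {k K0 E U : Type} [Field k] [Field K0] [Field E] [Field U] [Algebra k K0]
    [Algebra k E] [Algebra E U] [Algebra K0 U] (n : ℕ) (r : U) (c : k)
    (Φ : (E ≃ₐ[k] E) →* (U ≃+* U)) : Prop where
  const : ∀ g (e : E), Φ g (algebraMap E U e) = algebraMap E U (g e)
  fixK : ∀ g (x : K0), Φ g (algebraMap K0 U x) = algebraMap K0 U x
  tw : ∃ d : E, d ^ n = algebraMap k E c ∧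
    ∀ g, Φ g r * algebraMap E U (g d) = algebraMap E U d * r
  cont : ∀ z : U, ∃ L : IntermediateField k E, FiniteDimensional k L ∧
    ∀ g : E ≃ₐ[k] E, (∀ x ∈ L, g x = x) → Φ g z = z

/-- Some curve over `k` which maps onto `y ^ n = c h` has a Galois section. -/
def HasSec {k K0 : Type} [Field k] [Field K0] [Algebra k K0] (n : ℕ) (h : K0) (c : k) : Prop :=
  ∃ (K : Type) (_ : Field K) (_ : Algebra k K) (_ : Algebra K0 K) (_ : IsScalarTower k K0 K) (y : K),
    y ^ n = algebraMap k K c * algebraMap K0 K h ∧ Nonempty (GaloisSection k K)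

/-- `K0` is a function field of one variable over `k`, `y ^ n = h` is geometrically irreducible, and
not rational over the algebraic closure of `k`. -/
structure GoodCurve (k : Type) {K0 : Type} [Field k] [Field K0] [Algebra k K0] (n : ℕ) (h : K0) :
    Prop where
  ff : IsFunctionField k K0
  irr : ∀ r : AlgebraicClosure K0, r ^ n = algebraMap K0 (AlgebraicClosure K0) h →
    ∀ i : ℕ, 0 < i → i < n →
    r ^ i ∉ Subfield.closure (cst k K0 ∪ Set.range (algebraMap K0 (AlgebraicClosure K0)))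
  nonrat : ∀ r : AlgebraicClosure K0, r ^ n = algebraMap K0 (AlgebraicClosure K0) h →
    ∀ y : AlgebraicClosure K0,
      Subfield.closure (cst k K0 ∪ Set.range (algebraMap K0 (AlgebraicClosure K0)) ∪ {r}) ≠
        Subfield.closure (cst k K0 ∪ {y})

/-- BLOCK TR (transfer): the fixed situation `U`, and the action of all sections on it. -/
def StmtTR : Prop :=
  ∀ (k K0 : Type) [Field k] [NumberField k] [Field K0] [Algebra k K0] (n : ℕ) (h : K0), 2 ≤ n →
    GoodCurve k n h →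
    ∃ (E U : Type) (_ : Field E) (_ : Field U) (_ : Algebra k E) (_ : Algebra E U)
      (_ : Algebra K0 U) (_ : Algebra k U) (_ : IsScalarTower k E U) (_ : IsScalarTower k K0 U)
      (r : U), Geo k K0 E U n h r ∧ ∀ c : k, c ≠ 0 → HasSec n h c →
        ∃ Φ : (E ≃ₐ[k] E) →* (U ≃+* U), Act (K0 := K0) n r c Φ

/-- BLOCK K3 (agreement). -/
def StmtK3 : Prop :=
  ∀ (k K0 E U : Type) [Field k] [CharZero k] [Field K0] [Field E] [Field U] [Algebra k K0]
    [Algebra k E] [Algebra E U] [Algebra K0 U] [Algebra k U] [IsScalarTower k E U]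
    [IsScalarTower k K0 U] (n : ℕ) (h : K0) (r : U), 2 ≤ n → Geo k K0 E U n h r → ∀ Z : Finset U,
    ∃ (Z' : Finset U) (C : Finset E) (N : IntermediateField E U), Z ⊆ Z' ∧ r ∈ Z' ∧
      N = IntermediateField.adjoin E (Set.range (algebraMap K0 U) ∪ Z') ∧ IsFunctionField E N ∧
      Finite {b : N ≃ₐ[E] N // ∀ x : N, (x : U) ∈ L0 E K0 (U := U) → b x = x} ∧
      (∀ T : U ≃+* U, (∀ x : K0, T (algebraMap K0 U x) = algebraMap K0 U x) → ∀ z ∈ Z', T z ∈ Z') ∧
      ∀ T : U ≃+* U, (∀ x : K0, T (algebraMap K0 U x) = algebraMap K0 U x) →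
        (∀ e : E, ∃ e' : E, T (algebraMap E U e) = algebraMap E U e') →
        (∀ e ∈ C, T (algebraMap E U e) = algebraMap E U e) →
        ∃ b : N ≃ₐ[E] N, (∀ x : N, (x : U) ∈ L0 E K0 (U := U) → b x = x) ∧
          ∀ z : N, (z : U) ∈ Z' → T z = b z

/-- BLOCK K4 (compactness and uniqueness of the fixed place): for all large levels `N` all places
of `N` fixed by an automorphism `b` over `L0` of prime order `ℓ` which moves `r` lie over one place of
`M`. -/
def StmtK4 : Prop :=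
  ∀ (k K0 E U : Type) [Field k] [NumberField k] [Field K0] [Field E] [Field U] [Algebra k K0]
    [Algebra k E] [Algebra E U] [Algebra K0 U] [Algebra k U] [IsScalarTower k E U]
    [IsScalarTower k K0 U] (n : ℕ) (h : K0) (r : U), 2 ≤ n → Geo k K0 E U n h r →
    ∀ ℓ : ℕ, ℓ.Prime →
    ∃ Z : Finset U, ∀ N : IntermediateField E U, MM E K0 r ≤ N → (∀ z ∈ Z, z ∈ N) →
      IsFunctionField E N → ∀ b : N ≃ₐ[E] N,
      (∀ x : N, (x : U) ∈ L0 E K0 (U := U) → b x = x) → b ^ ℓ = 1 →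
      (∀ x : N, (x : U) = r → b x ≠ x) →
      ∀ Q Q' : Place E N, (∀ x ∈ Q.ring, b x ∈ Q.ring) → (∀ x ∈ Q'.ring, b x ∈ Q'.ring) →
      SamePlace (MM E K0 r) N Q Q'

/-! ## Arithmetic -/

/-- `v(c)` is not divisible by `n` -/
def IsRam {k : Type} [Field k] [NumberField k] (n : ℕ) (v : Pr k) (c : k) : Prop :=
  ∀ d : k, v.valuation k c ≠ v.valuation k d ^ n

/-- `F` is a Frobenius element at the valuation ring `O` of `E` over the prime `v` of `k` -/
structure DecPt {k E : Type} [Field k] [NumberField k] [Field E] [Algebra k E] (v : Pr k)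
    (O : ValuationSubring E) (F : E ≃ₐ[k] E) (p f : ℕ) : Prop where
  above : OverV v O
  norm : nm v = p ^ f
  frob : IsFrobAt O F.toRingEquiv p f
  ram : ∀ (n : ℕ) (c : k), 0 < n → IsRam n v c → ∀ d : E, d ^ n = algebraMap k E c →
    ∃ τ : E ≃ₐ[k] E, Inert O τ.toRingEquiv ∧ τ d ≠ d
  tame : ∀ γ τ : E ≃ₐ[k] E, (∀ z, γ z ∈ O ↔ z ∈ O) → Inert O τ.toRingEquiv →
    ∀ L : IntermediateField k E, FiniteDimensional k L → ∀ m : ℕ, m ≠ 0 →
    ∃ a j : ℕ, (∀ ζ : E, ζ ^ m = 1 → γ ζ = ζ ^ a) ∧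
      ∀ z ∈ L, (((τ ^ a)⁻¹ * (γ * τ * γ⁻¹)) ^ p ^ j) z = z

/-- BLOCK FR: Frobenius elements exist. -/
def StmtFR : Prop :=
  ∀ (k E : Type) [Field k] [NumberField k] [Field E] [IsAlgClosed E] [Algebra k E]
    [Algebra.IsAlgebraic k E] (v : Pr k),
    ∃ (O : ValuationSubring E) (F : E ≃ₐ[k] E) (p f : ℕ), DecPt v O F p f

/-- some point `P` of `Y` at which the valuation of `h` is not divisible by `n`, and an embedding of
its residue field in `E`, are fixed by `g` -/
def FixesBranch {k K0 E : Type} [Field k] [Field K0] [Field E] [Algebra k K0] [Algebra k E]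
    (n : ℕ) (h : K0) (g : E ≃ₐ[k] E) : Prop :=
  ∃ (P : ValuationSubring K0) (φ : P →+* E), (∀ a : k, algebraMap k K0 a ∈ P) ∧
    (∀ z : K0, P.valuation h ≠ P.valuation z ^ n) ∧
    (∀ (a : k) (x : P), (x : K0) = algebraMap k K0 a → φ x = algebraMap k E a) ∧
    ∀ x : P, g (φ x) = φ x

/-- BLOCK K5 (the local theorem), from K2, K3, K4, AR (K2 and AR are those of project L). -/
def StmtK5 : Prop :=
  ∀ (k K0 E U : Type) [Field k] [NumberField k] [Field K0] [Field E] [Field U] [Algebra k K0]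
    [Algebra k E] [Algebra E U] [Algebra K0 U] [Algebra k U] [IsScalarTower k E U]
    [IsScalarTower k K0 U] (n : ℕ) (h : K0) (r : U), 2 ≤ n → Geo k K0 E U n h r →
    ∃ Bad : Set (Pr k), Bad.Finite ∧ ∀ v ∉ Bad, ∀ c : k, c ≠ 0 → IsRam n v c →
      ∀ Φ : (E ≃ₐ[k] E) →* (U ≃+* U), Act (K0 := K0) n r c Φ →
      ∀ (O : ValuationSubring E) (F : E ≃ₐ[k] E) (p f : ℕ), DecPt v O F p f → FixesBranch n h F

/-- BLOCK LOC: if `n` does not divide `v(c)` then a Frobenius element at `v` fixes a branch point. -/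
def StmtLOC : Prop :=
  ∀ (k K0 : Type) [Field k] [NumberField k] [Field K0] [Algebra k K0] (n : ℕ) (h : K0), 2 ≤ n →
    GoodCurve k n h →
    ∃ Bad : Set (Pr k), Bad.Finite ∧ ∀ v ∉ Bad, ∀ c : k, c ≠ 0 → IsRam n v c → HasSec n h c →
      ∃ (O : ValuationSubring (AlgebraicClosure k)) (F : AlgebraicClosure k ≃ₐ[k] AlgebraicClosure k)
        (p f : ℕ), DecPt v O F p f ∧ FixesBranch n h F

open scoped Classical in
/-- BLOCK DEN: if some `σ` fixes no branch point, then for the primes `v` of a set `Q` of positive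
density no Frobenius element fixes a branch point. -/
def StmtDEN : Prop :=
  ∀ (k K0 : Type) [Field k] [NumberField k] [Field K0] [Algebra k K0] (n : ℕ) (h : K0), 2 ≤ n →
    GoodCurve k n h →
    ∀ σ : AlgebraicClosure k ≃ₐ[k] AlgebraicClosure k, ¬ FixesBranch n h σ →
    ∀ B : ℕ → Finset (Pr k), (∀ x v, v ∈ B x ↔ nm v ≤ x) →
    ∃ (δ C : ℝ) (Q : Set (Pr k)), 0 < δ ∧
      (∀ v ∈ Q, ∀ (O : ValuationSubring (AlgebraicClosure k))
        (F : AlgebraicClosure k ≃ₐ[k] AlgebraicClosure k) (p f : ℕ), DecPt v O F p f →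
        ¬ FixesBranch n h F) ∧
      ∀ x : ℕ, 2 ≤ x →
        |∑ v ∈ (B x).filter (· ∈ Q), (1 : ℝ) / nm v - δ * Real.log (Real.log x)| ≤ C

/-! ## Counting -/

open scoped Classical in
/-- The norm of the product of the primes `v` with `v(c)` not divisible by `n`. -/
def cond {k : Type} [Field k] [NumberField k] (n : ℕ) (c : k) : ℕ :=
  ∏ᶠ v : Pr k, if IsRam n v c then nm v else 1

/-- BLOCK UP: the weighted number of the sets of primes which avoid a set `Q` of density `δ`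
(`w` a natural number; weighted form of `Pool.Agent.HG.avoid29`, `Helper99.HG.hall`). -/
def StmtUP : Prop :=
  ∀ (k : Type) [Field k] [NumberField k] (w : ℕ), 1 ≤ w → ∀ (Q : Set (Pr k)) (δ C : ℝ)
    (B : ℕ → Finset (Pr k)), (∀ x v, v ∈ B x ↔ nm v ≤ x) →
    (∀ x : ℕ, 2 ≤ x → δ * Real.log (Real.log x) - C ≤
      Finset.sum (@Finset.filter _ (· ∈ Q) (Classical.decPred _) (B x)) fun v => (1 : ℝ) / nm v) →
    ∃ C' : ℝ, 0 < C' ∧ ∀ x : ℕ, 3 ≤ x → ∀ S : Finset (Finset (Pr k)),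
      (∀ s ∈ S, ∏ v ∈ s, nm v ≤ x ∧ ∀ v ∈ Q, v ∉ s) →
      ∑ s ∈ S, (w : ℝ) ^ s.card ≤ C' * x * Real.log x ^ ((w : ℝ) * (1 - δ) - 1)

/-- BLOCK LOW: lower bound for the weighted number of the sets of primes which avoid a finite set. -/
def StmtLOW : Prop :=
  ∀ (k : Type) [Field k] [NumberField k] (w : ℕ), 1 ≤ w → ∀ Bad : Set (Pr k), Bad.Finite →
    ∃ c₀ : ℝ, 0 < c₀ ∧ ∀ x : ℕ, 3 ≤ x → ∃ S : Finset (Finset (Pr k)),
      (∀ s ∈ S, ∏ v ∈ s, nm v ≤ x ∧ ∀ v ∈ Bad, v ∉ s) ∧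
      c₀ * x * Real.log x ^ ((w : ℝ) - 1) ≤ ∑ s ∈ S, (w : ℝ) ^ s.card

/-- BLOCK CLS (from sets of primes to classes, upper bound): finiteness of the Selmer group modulo
`n`-th powers. -/
def StmtCLS : Prop :=
  ∀ (k : Type) [Field k] [NumberField k] (n : ℕ), 2 ≤ n →
    ∃ F : ℕ, ∀ (Bd : k → Prop) (Y : ℕ) (Φ : ℝ),
      (∀ SS : Finset (Finset (Pr k)), (∀ A ∈ SS, ∏ v ∈ A, nm v ≤ Y ∧ ∃ c : k, c ≠ 0 ∧ Bd c ∧
        ∀ v, v ∈ A ↔ IsRam n v c) → ∑ A ∈ SS, ((n - 1 : ℕ) : ℝ) ^ A.card ≤ Φ) →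
      ∀ T : Finset k, (∀ c ∈ T, ∀ c' ∈ T, (∃ d : k, c = c' * d ^ n) → c = c') →
        (∀ c ∈ T, c ≠ 0 ∧ cond n c ≤ Y ∧ Bd c) → (T.card : ℝ) ≤ F * Φ

/-- BLOCK CLO (from sets of primes to classes, lower bound): class group. -/
def StmtCLO : Prop :=
  ∀ (k : Type) [Field k] [NumberField k] (n : ℕ), 2 ≤ n →
    ∃ (Bad : Set (Pr k)) (D : ℕ), Bad.Finite ∧ 0 < D ∧ ∀ (Y : ℕ) (S : Finset (Finset (Pr k))),
      (∀ s ∈ S, ∏ v ∈ s, nm v ≤ Y ∧ ∀ v ∈ Bad, v ∉ s) →
      ∃ T : Finset k, (∀ c ∈ T, ∀ c' ∈ T, (∃ d : k, c = c' * d ^ n) → c = c') ∧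
        (∀ c ∈ T, c ≠ 0 ∧ cond n c ≤ D * Y) ∧
        ∑ s ∈ S, ((n - 1 : ℕ) : ℝ) ^ s.card ≤ T.card

/-- the classes modulo `n`-th powers -/
abbrev Cls (k : Type) [Field k] (n : ℕ) : Type := kˣ ⧸ (powMonoidHom n : kˣ →* kˣ).range

/-- the classes with a representative with conductor at most `X` and the property `P` -/
def clsP {k : Type} [Field k] [NumberField k] (n : ℕ) (P : k → Prop) (X : ℕ) : Set (Cls k n) :=
  {C | ∃ c : kˣ, (c : Cls k n) = C ∧ cond n (c : k) ≤ X ∧ P (c : k)}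

/-- The final theorem of project LN. -/
def StmtFinLN : Prop :=
  ∀ (k K0 : Type) [Field k] [NumberField k] [Field K0] [Algebra k K0] (n : ℕ) (h : K0), 2 ≤ n →
    GoodCurve k n h →
    (∃ σ : AlgebraicClosure k ≃ₐ[k] AlgebraicClosure k, ¬ FixesBranch n h σ) →
    (∀ X : ℕ, (clsP (k := k) n (fun _ => True) X).Finite) ∧
    ∃ η C : ℝ, 0 < η ∧ 0 < C ∧ ∀ X : ℕ, 3 ≤ X →
      (Nat.card (clsP n (fun c : k => HasSec n h c) X) : ℝ) ≤
        C * Nat.card (clsP (k := k) n (fun _ => True) X) / Real.log X ^ η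

end

end Pool.Agent.LN
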