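import Pool.Agent.Helper99.LN.Defs
import Pool.Agent.Helper29.L.K5

/-!
# Project LN, block K5: the local theorem for cyclic twists
-/

set_option autoImplicit false

namespace Pool.Agent.LN

open VC IntermediateField NumberField IsDedekindDomain Pool.Agent.SC Pool.Agent.Helper91.Sect
open Pool.Agent.HG (Pr nm)
open Pool.Agent.L

noncomputable section

section branch

variable {k K0 E U : Type} [Field k] [Field K0] [Field E] [Field U] [Algebra k K0]
    [Algebra k E] [Algebra E U] [Algebra K0 U] [Algebra k U] [IsScalarTower k E U]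
    [IsScalarTower k K0 U]

variable [IsAlgClosed E] [CharZero E]

/-- the conclusion of block K5 from the fixed place -/
theorem branch99 {n : ℕ} (hn : 0 < n) {h : K0} {r : U} (hr : r ^ n = algebraMap K0 U h) (hr0 : r ≠ 0)
    {N : IntermediateField E U} (hN : IsFunctionField E N) (hMN : MM E K0 r ≤ N)
    {b : N ≃ₐ[E] N} (hbK : ∀ x : N, (x : U) ∈ L0 E K0 (U := U) → b x = x) {ℓ : ℕ} (hℓ : 0 < ℓ)
    (hb2 : b ^ ℓ = 1) {ξ : E} (hξ : ξ ≠ 1) (hbr : ∀ x : N, (x : U) = r → b x = algebraMap E N ξ * x) {Q : Place E N} (hQ : ∀ x ∈ Q.ring, b x ∈ Q.ring)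
    (F : E ≃ₐ[k] E) (φ : N ≃+* N) (hφE : ∀ e : E, φ (algebraMap E N e) = algebraMap E N (F e))
    (hφK : ∀ x : N, (∃ y : K0, algebraMap K0 U y = x) → φ x = x)
    (hQQ : ∀ x : N, (x : U) ∈ MM E K0 r → (x ∈ Q.ring ↔ φ.symm x ∈ Q.ring)) :
    LN.FixesBranch n h F := by
  have hKM : ∀ x : K0, algebraMap K0 U x ∈ MM E K0 r := fun x =>
    subset_adjoin _ _ (Or.inl ⟨x, rfl⟩)
  have hKL : ∀ x : K0, algebraMap K0 U x ∈ L0 E K0 (U := U) := fun x =>
    subset_adjoin _ _ ⟨x, rfl⟩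
  have hrM : r ∈ MM E K0 r := subset_adjoin _ _ (Or.inr rfl)
  let j : K0 →+* N := toN29 E N fun x => hMN (hKM x)
  have hj : ∀ x : K0, ((j x : N) : U) = algebraMap K0 U x := fun x => rfl
  have hjk : ∀ a : k, j (algebraMap k K0 a) = algebraMap E N (algebraMap k E a) := by
    intro a
    apply Subtype.ext
    rw [hj]
    change _ = algebraMap E U (algebraMap k E a)
    rw [← IsScalarTower.algebraMap_apply k K0 U, ← IsScalarTower.algebraMap_apply k E U]
  obtain ⟨ρ, hρ⟩ := exists_res29 hN Q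
  let P : ValuationSubring K0 := Q.ring.comap j
  have hP : ∀ x : K0, x ∈ P ↔ j x ∈ Q.ring := fun x => Iff.rfl
  let jP : P →+* Q.ring := (j.comp P.subtype).codRestrict Q.ring fun x => x.2
  have hjP : ∀ x : P, ((jP x : Q.ring) : N) = j x := fun x => rfl
  refine ⟨P, ρ.comp jP, ?_, ?_, ?_, ?_⟩
  · intro a
    rw [hP, hjk]
    exact Q.algebraMap_mem _
  · -- the odd valuation
    intro z hz
    have hh0 : h ≠ 0 := by
      rintro rfl
      rw [map_zero] at hr
      exact hr0 (pow_eq_zero_iff hn.ne' |>.1 hr)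
    have hz0 : z ≠ 0 := by
      rintro rfl
      rw [map_zero, zero_pow hn.ne', Valuation.zero_iff] at hz
      exact hh0 hz
    obtain ⟨rN, hrN⟩ : ∃ rN : N, (rN : U) = r := ⟨⟨r, hMN hrM⟩, rfl⟩
    have hrN2 : rN ^ n = j h := by
      apply Subtype.ext
      rw [hj, ← hr, ← hrN]
      rfl
    have hjz : j z ≠ 0 := (map_ne_zero j).2 hz0
    -- `h / z ^ n` is a unit
    have hv : P.valuation (h / z ^ n) = 1 := by
      rw [map_div₀, hz, map_pow, div_self]
      exact pow_ne_zero _ ((Valuation.ne_zero_iff _).2 hz0)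
    have h1 : Q.ring.valuation ((rN / j z) ^ n) = 1 := by
      have e1 : (rN / j z) ^ n = j (h / z ^ n) := by
        rw [div_pow, hrN2, map_div₀, map_pow]
      rw [e1]
      apply le_antisymm
      · rw [ValuationSubring.valuation_le_one_iff, ← hP, ← P.valuation_le_one_iff, hv]
      · have h2 : Q.ring.valuation (j (h / z ^ n))⁻¹ ≤ 1 := by
          rw [← map_inv₀ j, ValuationSubring.valuation_le_one_iff, ← hP, ← P.valuation_le_one_iff,
            map_inv₀, hv, inv_one]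
        have h3 : Q.ring.valuation (j (h / z ^ n)) ≠ 0 := by
          rw [Valuation.ne_zero_iff]
          exact (map_ne_zero j).2 (div_ne_zero hh0 (pow_ne_zero _ hz0))
        rw [map_inv₀] at h2
        exact (inv_le_one₀ (zero_lt_iff.2 h3)).1 h2
    have h2 : Q.ring.valuation (rN / j z) = 1 := by
      rw [map_pow] at h1
      exact (pow_eq_one_iff_of_nonneg zero_le hn.ne').1 h1
    have hbz : b (j z) = j z := hbK _ (hKL z)
    have hbr' : b rN = algebraMap E N ξ * rN := hbr rN hrN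
    refine not_unit_of_fixed (E := E) (R := Q.ring) (σ := fun x : N => b x) (v := rN / j z)
      (ξ := ξ) ?_ Q.algebraMap_mem ?_ ?_ hξ ?_ ?_ ?_
    · intro c x
      rw [map_add, AlgEquiv.commutes]
    · intro x hx
      exact FF.exists_residue hN Q hx
    · exact map_nonunits29 hℓ hb2 hQ
    · rw [map_div₀, hbr', hbz]
      ring
    · rw [← ValuationSubring.valuation_le_one_iff, h2]
    · rw [ValuationSubring.mem_nonunits_iff, h2]
      exact lt_irrefl _
  · intro a x hx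
    apply const_unique29 Q (hρ (jP x))
    rw [hjP, hx, hjk, sub_self, ValuationSubring.mem_nonunits_iff, map_zero]
    exact zero_lt_one
  · intro x
    change F (ρ (jP x)) = ρ (jP x)
    refine const_unique29 Q (x := j x) ?_ (hρ (jP x))
    have h1 := hρ (jP x)
    rw [hjP] at h1
    have hyM : ∀ e : E, ((j x - algebraMap E N e : N) : U) ∈ MM E K0 r := by
      intro e
      exact sub_mem (hKM x) (IntermediateField.algebraMap_mem _ e)
    have hsymm : φ.symm (j x - algebraMap E N (F (ρ (jP x)))) =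
        j x - algebraMap E N (ρ (jP x)) := by
      rw [RingEquiv.symm_apply_eq, map_sub, hφE, hφK _ ⟨x, rfl⟩]
    rw [ValuationSubring.mem_nonunits_iff_or] at h1 ⊢
    rcases h1 with h1 | h1
    · left
      rw [← hsymm, map_eq_zero_iff _ φ.symm.injective] at h1
      exact h1
    · right
      intro h2
      apply h1
      have h3 : (((j x - algebraMap E N (F (ρ (jP x))))⁻¹ : N) : U) ∈ MM E K0 r :=
        inv_mem (hyM _)
      rw [hQQ _ h3, map_inv₀, hsymm] at h2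
      exact h2

end branch

/-- **BLOCK K5.** -/
theorem k5 (hK2 : StmtK2) (hK3 : LN.StmtK3) (hK4 : LN.StmtK4) (hAR : StmtAR) : LN.StmtK5 := by
  classical
  intro k K0 E U _ _ _ _ _ _ _ _ _ _ _ _ n h r hn2 geo
  have hn0 : 0 < n := by omega
  have hcl : IsAlgClosed E := geo.clE
  have halg : Algebra.IsAlgebraic k E := geo.algE
  have hch : CharZero E := charZero_of_injective_algebraMap (algebraMap k E).injective
  choose Z4 hZ4 using fun ℓ : n.primeFactors =>
    hK4 k K0 E U n h r hn2 geo ℓ.1 (Nat.prime_of_mem_primeFactors ℓ.2)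
  let Z4t : Finset U := Finset.univ.biUnion Z4
  obtain ⟨Z', C3, N, hZZ', hrZ', hN, hff, hfin, hst, hag⟩ := hK3 k K0 E U n h r hn2 geo Z4t
  -- the group of the level
  let HH : Subgroup (N ≃ₐ[E] N) := HS K0 N
  have hHfin : Finite HH := hfin
  have hKN : ∀ x : K0, algebraMap K0 U x ∈ N := fun x => by
    rw [hN]
    exact subset_adjoin _ _ (Or.inl ⟨x, rfl⟩)
  have hZN : ∀ z ∈ Z', z ∈ N := fun z hz => by
    rw [hN]
    exact subset_adjoin _ _ (Or.inr hz)
  have hMN : MM E K0 r ≤ N := by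
    rw [hN]
    refine adjoin.mono E _ _ (Set.union_subset_union_right _ ?_)
    rintro _ rfl
    exact hrZ'
  have hLN : L0 E K0 (U := U) ≤ N := by
    rw [hN]
    exact adjoin.mono E _ _ (Set.subset_union_left)
  have hKL : ∀ x : K0, algebraMap K0 U x ∈ L0 E K0 (U := U) := fun x =>
    subset_adjoin _ _ ⟨x, rfl⟩
  have hr0 : r ≠ 0 := by
    rintro rfl
    exact geo.rnot 1 one_pos (by omega) (by rw [pow_one]; exact zero_mem _)
  -- the data of block K2
  have hK2' : ∀ b : N ≃ₐ[E] N, ∃ (Z : Finset N) (S : Finset E), (∀ s ∈ S, s ≠ 0) ∧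
      ((∃ ℓ : ℕ, ℓ.Prime ∧ b ^ ℓ = 1) → b ≠ 1 → (∀ P : Place E N, ∃ x ∈ P.ring, b x ∉ P.ring) →
      ∀ (O : ValuationSubring E) (σ τ : E ≃+* E) (p f : ℕ) (h T : U ≃+* U),
      FPair O σ τ p f h T → (∀ s ∈ S, O.valuation s = 1) → (∀ z ∈ Z, h z = z) →
      (∀ z ∈ Z, T z = b z) → False) := by
    intro b
    by_cases hb : (∃ ℓ : ℕ, ℓ.Prime ∧ b ^ ℓ = 1) ∧ b ≠ 1 ∧
        ∀ P : Place E N, ∃ x ∈ P.ring, b x ∉ P.ring
    · obtain ⟨⟨ℓ, hℓ, h1⟩, h2, h3⟩ := hb
      obtain ⟨Z, S, h4, h5⟩ := hK2 E U (MM E K0 r) geo.cover N hff b ℓ hℓ h1 h2 h3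
      exact ⟨Z, S, h4, fun _ _ _ => h5⟩
    · exact ⟨∅, ∅, by simp, fun h1 h2 h3 => absurd ⟨h1, h2, h3⟩ hb⟩
  choose Zb Sb hSb0 hKb using hK2'
  choose Cz hCz using fun z : N => agree29 (K0 := K0) hN z
  have hHft : Fintype HH := Fintype.ofFinite HH
  let ZZ : Finset N := Finset.univ.biUnion fun b : HH => Zb b.1
  obtain ⟨Z2, -, -, hZ2, -, -, -, -, hst2, -⟩ :=
    hK3 k K0 E U n h r hn2 geo (ZZ.image (Subtype.val : N → U))
  let Ctot : Finset E := C3 ∪ ZZ.biUnion Cz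
  let Stot : Finset E := insert (Nat.card HH : E) (Finset.univ.biUnion fun b : HH => Sb b.1)
  have hcard0 : (Nat.card HH : E) ≠ 0 := Nat.cast_ne_zero.2 Nat.card_pos.ne'
  have hStot : ∀ s ∈ Stot, s ≠ 0 := by
    intro s hs
    rcases Finset.mem_insert.1 hs with rfl | hs
    · exact hcard0
    · obtain ⟨b, -, hb⟩ := Finset.mem_biUnion.1 hs
      exact hSb0 b.1 s hb
  obtain ⟨Bad, hBad, hgood⟩ := hAR k E Stot Ctot hStot
  refine ⟨Bad, hBad, ?_⟩
  intro v hv c hc hodd Φ hΦ O F p f hdec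
  obtain ⟨hS, hC⟩ := hgood v hv O hdec.above
  -- the action of the inertia element
  obtain ⟨d, hd, htw⟩ := hΦ.tw
  have hd0 : d ≠ 0 := by
    rintro rfl
    rw [zero_pow hn0.ne'] at hd
    exact hc ((map_eq_zero _).1 hd.symm)
  obtain ⟨τ, hτ, hτd⟩ := hdec.ram n c hn0 hodd d hd
  have hτC := hC τ hτ
  have hτd0 : τ d ≠ 0 := (map_ne_zero τ).2 hd0
  obtain ⟨T, hT⟩ : ∃ T : U ≃+* U, T = Φ τ := ⟨_, rfl⟩
  obtain ⟨ξ, hξdef⟩ : ∃ ξ : E, ξ = d / τ d := ⟨_, rfl⟩
  have hξ1 : ξ ≠ 1 := by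
    rw [hξdef]
    intro h1
    rw [div_eq_one_iff_eq hτd0] at h1
    exact hτd h1.symm
  have hξn : ξ ^ n = 1 := by
    rw [hξdef, div_pow, ← map_pow, hd, AlgEquiv.commutes, div_self]
    exact (map_ne_zero _).2 hc
  have hTr : T r = algebraMap E U ξ * r := by
    have h1 := htw τ
    rw [← hT] at h1
    have hd0' : algebraMap E U (τ d) ≠ 0 := (map_ne_zero _).2 hτd0
    apply mul_right_cancel₀ hd0'
    rw [h1, hξdef, map_div₀]
    field_simp
  have hTK : ∀ x : K0, T (algebraMap K0 U x) = algebraMap K0 U x := fun x => by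
    rw [hT]
    exact hΦ.fixK τ x
  have hTE : ∀ e : E, T (algebraMap E U e) = algebraMap E U (τ e) := fun e => by
    rw [hT]
    exact hΦ.const τ e
  obtain ⟨b0, hb0K, hb0⟩ := hag T hTK (fun e => ⟨τ e, hTE e⟩) (fun e he => by
    rw [hTE, hτC e (Finset.mem_union_left _ he)])
  have hTZ : ∀ z ∈ Z', T z ∈ Z' := hst T hTK
  have hpow : ∀ (m : ℕ) (z : N), (z : U) ∈ Z' → (T ^ m) (z : U) = ((b0 ^ m) z : N) := by
    intro m
    induction m with
    | zero => intro z _; rfl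
    | succ m ih =>
      intro z hz
      have h1 : (T ^ (m + 1)) (z : U) = (T ^ m) (T (z : U)) := by
        rw [pow_succ]
        rfl
      have h2 := hTZ _ hz
      rw [hb0 z hz] at h2
      rw [h1, hb0 z hz, ih _ h2, pow_succ, AlgEquiv.mul_apply]
  have hpowZ : ∀ (m : ℕ) (z : N), (z : U) ∈ Z' → (((b0 ^ m) z : N) : U) ∈ Z' := by
    intro m
    induction m with
    | zero => intro z hz; exact hz
    | succ m ih =>
      intro z hz
      rw [pow_succ, AlgEquiv.mul_apply]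
      refine ih _ ?_
      rw [← hb0 z hz]
      exact hTZ _ hz
  have hb0H : b0 ∈ HH := hb0K
  -- powers of prime order have fixed places
  have hprime : ∀ m ℓ : ℕ, ℓ.Prime → (b0 ^ m) ^ ℓ = 1 → b0 ^ m ≠ 1 →
      ∃ P : Place E N, ∀ x ∈ P.ring, (b0 ^ m) x ∈ P.ring := by
    intro n ℓ hℓ h1 h2
    by_contra hcon
    push Not at hcon
    have hbH : b0 ^ n ∈ HH := HH.pow_mem hb0H n
    have hΦF : ∀ z ∈ Z2, Φ F z ∈ Z2 := hst2 (Φ F) (hΦ.fixK F)
    obtain ⟨m, hm, hm1⟩ := exists_pow29 (Φ F) (Φ F).injective hΦF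
    have hm2 : ∀ z ∈ Z2, Φ (F ^ m) z = z := by
      intro z hz
      rw [map_pow]
      have h3 : ∀ (i : ℕ) (y : U), ((Φ F) ^ i) y = (Φ F : U → U)^[i] y := by
        intro i
        induction i with
        | zero => intro y; rfl
        | succ i ih =>
          intro y
          rw [pow_succ, Function.iterate_succ_apply, ← ih]
          rfl
      rw [h3]
      exact hm1 z hz
    refine hKb (b0 ^ n) ⟨ℓ, hℓ, h1⟩ h2 hcon O (F ^ m).toRingEquiv (τ ^ n).toRingEquiv p (f * m)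
      (Φ (F ^ m)) (Φ (τ ^ n)) ?_ ?_ ?_ ?_
    · refine ⟨frob_pow29 hdec.frob hm, inert_pow29 hτ n, fun c => hΦ.const _ c,
        fun c => hΦ.const _ c, ?_⟩
      intro Z m' hm'
      obtain ⟨L, hL1, hL2⟩ := exists_cont29 hΦ.cont Z
      obtain ⟨a, j, ha, hj⟩ := hdec.tame (F ^ m) (τ ^ n)
        (fun z => stab_pow29 (σ := F) hdec.frob.stable m z) (inert_pow29 hτ n) L hL1 m' hm'
      refine ⟨a, j, ha, fun z hz => ?_⟩
      have h3 := hL2 _ hj z hz
      rw [map_pow, map_mul, map_inv, map_pow, map_mul, map_mul, map_inv] at h3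
      exact h3
    · intro s hs
      exact hS s (Finset.mem_insert_of_mem (Finset.mem_biUnion.2 ⟨⟨_, hbH⟩, Finset.mem_univ _, hs⟩))
    · intro z hz
      refine hm2 _ (hZ2 (Finset.mem_image_of_mem _ ?_))
      exact Finset.mem_biUnion.2 ⟨⟨_, hbH⟩, Finset.mem_univ _, hz⟩
    · intro z hz
      have hzZ : z ∈ ZZ := Finset.mem_biUnion.2 ⟨⟨_, hbH⟩, Finset.mem_univ _, hz⟩
      refine hCz z (Φ (τ ^ n)) (b0 ^ n) (hΦ.fixK _) hbH ?_ ?_
      · intro x hx
        rw [map_pow, ← hT]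
        exact hpow n x hx
      · intro e he
        rw [hΦ.const]
        have h4 : τ e = e := hτC e (Finset.mem_union_right _ (Finset.mem_biUnion.2 ⟨z, hzZ, he⟩))
        have h5 : (τ ^ n) e = e := by
          rw [iter29]
          exact Function.iterate_fixed h4 n
        rw [h5]
  -- the action on `r`
  have hbr : ∀ x : N, (x : U) = r → b0 x = algebraMap E N ξ * x := by
    intro x hx
    apply Subtype.ext
    rw [← hb0 x (by rw [hx]; exact hrZ'), hx, hTr]
    rw [← hx]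
    rfl
  have hbrm : ∀ (m : ℕ) (x : N), (x : U) = r → (b0 ^ m) x = algebraMap E N (ξ ^ m) * x := by
    intro m
    induction m with
    | zero =>
      intro x _
      rw [pow_zero, pow_zero, map_one, one_mul]
      rfl
    | succ m ih =>
      intro x hx
      rw [pow_succ' b0, AlgEquiv.mul_apply, ih x hx, map_mul, AlgEquiv.commutes, hbr x hx,
        pow_succ, map_mul]
      ring
  -- a power which is trivial on `r` is trivial
  have hkey : ∀ m : ℕ, ξ ^ m = 1 → b0 ^ m = 1 := by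
    intro m hm
    have hsq : ∀ x : N, (x : U) ∈ MM E K0 r → (b0 ^ m) x = x := by
      refine fun x hx => fix_adjoin29 (b := b0 ^ m) hMN ?_ x hx
      intro x hx
      rcases hx with hx | hx
      · have h1 : (x : U) ∈ L0 E K0 (U := U) := subset_adjoin _ _ hx
        exact HH.pow_mem hb0H m x h1
      · have h1 : (x : U) = r := hx
        rw [hbrm m x h1, hm, map_one, one_mul]
    by_contra hne
    have hfo : 0 < orderOf (⟨b0 ^ m, HH.pow_mem hb0H m⟩ : HH) := orderOf_pos _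
    obtain ⟨s, hs⟩ : ∃ s, s = orderOf (⟨b0 ^ m, HH.pow_mem hb0H m⟩ : HH) := ⟨_, rfl⟩
    rw [← hs] at hfo
    have hs' : s = orderOf (b0 ^ m) := by
      rw [hs]
      exact (Subgroup.orderOf_coe _).symm
    have hs1 : s ≠ 1 := by
      rw [hs']
      intro h1
      exact hne (orderOf_eq_one_iff.1 h1)
    obtain ⟨ℓ, hℓ, i, hi⟩ := Nat.exists_prime_and_dvd hs1
    have hi0 : 0 < i := by
      rcases Nat.eq_zero_or_pos i with h1 | h1
      · rw [h1, mul_zero] at hi
        omega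
      · exact h1
    have h1 : (b0 ^ (m * i)) ^ ℓ = 1 := by
      rw [← pow_mul, mul_assoc, mul_comm i ℓ, ← hi, pow_mul, hs', pow_orderOf_eq_one]
    have h2 : b0 ^ (m * i) ≠ 1 := by
      rw [pow_mul]
      refine pow_ne_one_of_lt_orderOf hi0.ne' ?_
      rw [← hs', hi]
      have := hℓ.two_le
      nlinarith
    obtain ⟨P, hP⟩ := hprime (m * i) ℓ hℓ h1 h2
    apply h2
    refine unram29 geo.cover hMN hff hℓ h1 ?_ hP
    intro x hx
    rw [pow_mul]
    have h3 := hsq x hx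
    clear hi hi0 h1 h2 hP
    induction i with
    | zero => rfl
    | succ i ih => rw [pow_succ, AlgEquiv.mul_apply, h3, ih]
  have hbn : b0 ^ n = 1 := hkey n hξn
  have hb1 : b0 ≠ 1 := by
    intro h1
    have h2 := hbr ⟨r, hZN r hrZ'⟩ rfl
    rw [h1] at h2
    have h3 : r = algebraMap E U ξ * r := congrArg Subtype.val h2
    have h4 : algebraMap E U ξ = 1 := by
      apply mul_right_cancel₀ hr0
      rw [← h3, one_mul]
    exact hξ1 ((map_eq_one_iff _ (algebraMap E U).injective).1 h4)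
  -- a power of prime order
  obtain ⟨s, hs⟩ : ∃ s, s = orderOf b0 := ⟨_, rfl⟩
  have hsn : s ∣ n := by rw [hs]; exact orderOf_dvd_of_pow_eq_one hbn
  have hs1 : s ≠ 1 := by
    rw [hs]
    intro h1
    exact hb1 (orderOf_eq_one_iff.1 h1)
  have hs0 : 0 < s := Nat.pos_of_dvd_of_pos hsn hn0
  obtain ⟨ℓ, hℓ, i, hi⟩ := Nat.exists_prime_and_dvd hs1
  have hi0 : 0 < i := by
    rcases Nat.eq_zero_or_pos i with h1 | h1
    · rw [h1, mul_zero] at hi
      omega
    · exact h1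
  have hℓn : ℓ ∈ n.primeFactors :=
    Nat.mem_primeFactors.2 ⟨hℓ, (Dvd.intro _ hi.symm).trans hsn, hn0.ne'⟩
  have hb1l : (b0 ^ i) ^ ℓ = 1 := by
    rw [← pow_mul, mul_comm i ℓ, ← hi, hs, pow_orderOf_eq_one]
  have hb1ne : b0 ^ i ≠ 1 := by
    refine pow_ne_one_of_lt_orderOf hi0.ne' ?_
    rw [← hs, hi]
    have := hℓ.two_le
    nlinarith
  have hξi : ξ ^ i ≠ 1 := fun h1 => hb1ne (hkey i h1)
  obtain ⟨Q, hQ⟩ := hprime i ℓ hℓ hb1l hb1ne
  -- the Frobenius element on `N`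
  have hΦN : ∀ (g : E ≃ₐ[k] E) (x : U), x ∈ N → Φ g x ∈ N := by
    intro g x hx
    rw [hN] at hx ⊢
    refine map_adjoin29 (fun e => ⟨g e, hΦ.const g e⟩) ?_ hx
    rintro y (⟨y, rfl⟩ | hy)
    · rw [hΦ.fixK]
      exact subset_adjoin _ _ (Or.inl ⟨y, rfl⟩)
    · exact subset_adjoin _ _ (Or.inr (hst (Φ g) (hΦ.fixK g) y hy))
  have hinv : ∀ x : U, Φ F (Φ F⁻¹ x) = x := by
    intro x
    have h1 : Φ F * Φ F⁻¹ = 1 := by rw [← map_mul, mul_inv_cancel, map_one]
    exact congrArg (fun g : U ≃+* U => g x) h1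
  have hinv' : ∀ x : U, Φ F⁻¹ (Φ F x) = x := by
    intro x
    have h1 : Φ F⁻¹ * Φ F = 1 := by rw [← map_mul, inv_mul_cancel, map_one]
    exact congrArg (fun g : U ≃+* U => g x) h1
  let φ : N ≃+* N :=
    { toFun := fun x => ⟨Φ F x, hΦN F x x.2⟩
      invFun := fun x => ⟨Φ F⁻¹ x, hΦN F⁻¹ x x.2⟩
      left_inv := fun x => Subtype.ext (hinv' x)
      right_inv := fun x => Subtype.ext (hinv x)
      map_mul' := fun x y => Subtype.ext (map_mul (Φ F) (x : U) y)
      map_add' := fun x y => Subtype.ext (map_add (Φ F) (x : U) y) }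
  have hφ : ∀ x : N, ((φ x : N) : U) = Φ F x := fun x => rfl
  have hφs : ∀ x : N, ((φ.symm x : N) : U) = Φ F⁻¹ x := fun x => rfl
  have hφE : ∀ e : E, φ (algebraMap E N e) = algebraMap E N (F e) := fun e =>
    Subtype.ext (hΦ.const F e)
  have hφsE : ∀ e : E, φ.symm (algebraMap E N e) = algebraMap E N (F⁻¹ e) := fun e =>
    Subtype.ext (hΦ.const F⁻¹ e)
  let b1 : N ≃ₐ[E] N := AlgEquiv.ofRingEquiv (f := (φ.symm.trans b0.toRingEquiv).trans φ) (by
    intro e
    change φ (b0 (φ.symm (algebraMap E N e))) = _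
    rw [hφsE, AlgEquiv.commutes, hφE]
    congr 1
    exact F.apply_symm_apply e)
  have hb1a : ∀ x : N, b1 x = φ (b0 (φ.symm x)) := fun x => rfl
  have hφL : ∀ (g : E ≃ₐ[k] E) (x : U), x ∈ L0 E K0 (U := U) → Φ g x ∈ L0 E K0 (U := U) := by
    intro g x hx
    refine map_adjoin29 (fun e => ⟨g e, hΦ.const g e⟩) ?_ hx
    rintro y ⟨y, rfl⟩
    rw [hΦ.fixK]
    exact subset_adjoin _ _ ⟨y, rfl⟩
  have hb1H : b1 ∈ HH := by
    intro x hx
    rw [hb1a, hb0K _ (by rw [hφs]; exact hφL F⁻¹ _ hx)]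
    exact φ.apply_symm_apply x
  -- `b1 = b0 ^ a`
  obtain ⟨a, hac, hb01⟩ : ∃ a : ℕ, a.Coprime n ∧ b1 = b0 ^ a := by
    obtain ⟨L, hL1, hL2⟩ := exists_cont29 hΦ.cont Z'
    obtain ⟨a, j, ha, hj⟩ := hdec.tame F τ hdec.frob.stable hτ L hL1 n hn0.ne'
    have hac : a.Coprime n := by
      have : NeZero (n : E) := ⟨Nat.cast_ne_zero.2 hn0.ne'⟩
      obtain ⟨ζ, hζ⟩ := HasEnoughRootsOfUnity.exists_primitiveRoot E n
      have h1 : IsPrimitiveRoot (F ζ) n := hζ.map_of_injective F.injective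
      rw [ha ζ hζ.pow_eq_one] at h1
      exact (hζ.pow_iff_coprime hn0 a).1 h1
    refine ⟨a, hac, ?_⟩
    have hst' : ∀ (g : E ≃ₐ[k] E), ∀ z ∈ Z', Φ g z ∈ Z' := fun g => hst (Φ g) (hΦ.fixK g)
    obtain ⟨W, hW⟩ : ∃ W : U ≃+* U, W = (T ^ a)⁻¹ * (Φ F * T * (Φ F)⁻¹) := ⟨_, rfl⟩
    have hWΦ : W = Φ ((τ ^ a)⁻¹ * (F * τ * F⁻¹)) := by
      rw [hW, map_mul, map_inv, map_pow, map_mul, map_mul, map_inv, hT]
    have hbinv : (b0 ^ a)⁻¹ = b0 ^ ((n - 1) * a) := by
      rw [inv_eq_iff_mul_eq_one, ← pow_add]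
      have e : a + (n - 1) * a = n * a := by
        obtain ⟨n', rfl⟩ : ∃ n', n = n' + 1 := ⟨n - 1, by omega⟩
        rw [Nat.add_sub_cancel]
        ring
      rw [e, pow_mul, hbn, one_pow]
    let w : N ≃ₐ[E] N := (b0 ^ a)⁻¹ * b1
    have hwH : w ∈ HH := HH.mul_mem (HH.inv_mem (HH.pow_mem hb0H a)) hb1H
    have hb1Z : ∀ x : N, (x : U) ∈ Z' → ((b1 x : N) : U) ∈ Z' := by
      intro x hx
      have h1 : ((φ.symm x : N) : U) ∈ Z' := by
        rw [hφs]
        exact hst' F⁻¹ _ hx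
      rw [hb1a, hφ, ← hb0 _ h1]
      exact hst' F _ (hTZ _ h1)
    have hwZ : ∀ x : N, (x : U) ∈ Z' → ((w x : N) : U) ∈ Z' := by
      intro x hx
      change (((b0 ^ a)⁻¹ (b1 x) : N) : U) ∈ Z'
      rw [hbinv]
      exact hpowZ _ _ (hb1Z x hx)
    have hWw : ∀ x : N, (x : U) ∈ Z' → W (x : U) = ((w x : N) : U) := by
      intro x hx
      have h1 : ((φ.symm x : N) : U) ∈ Z' := by
        rw [hφs]
        exact hst' F⁻¹ _ hx
      have h2 : (Φ F * T * (Φ F)⁻¹) (x : U) = ((b1 x : N) : U) := by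
        change Φ F (T ((Φ F)⁻¹ (x : U))) = _
        rw [← map_inv, ← hφs, hb0 _ h1]
        rfl
      have h3 : (T ^ a) ((w x : N) : U) = ((b1 x : N) : U) := by
        rw [hpow a _ (hwZ x hx)]
        change (((b0 ^ a) ((b0 ^ a)⁻¹ (b1 x)) : N) : U) = _
        rw [← AlgEquiv.mul_apply (b0 ^ a), mul_inv_cancel, AlgEquiv.one_apply]
      rw [hW]
      change (T ^ a)⁻¹ ((Φ F * T * (Φ F)⁻¹) (x : U)) = _
      rw [h2, ← h3]
      exact (T ^ a).symm_apply_apply _
    have hWwn : ∀ (n : ℕ) (x : N), (x : U) ∈ Z' → (W ^ n) (x : U) = (((w ^ n) x : N) : U) := by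
      intro n
      induction n with
      | zero => intro x _; rfl
      | succ n ih =>
        intro x hx
        have h1 : (W ^ (n + 1)) (x : U) = (W ^ n) (W (x : U)) := by
          rw [pow_succ]
          rfl
        rw [h1, hWw x hx, ih _ (hwZ x hx), pow_succ w]
        rfl
    have hw1 : w ^ p ^ j = 1 := by
      apply AlgEquiv.ext
      intro x
      rw [AlgEquiv.one_apply]
      have hle : IntermediateField.adjoin E (Set.range (algebraMap K0 U) ∪ (Z' : Set U)) ≤ N :=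
        hN.symm.le
      refine fix_adjoin29 (b := w ^ p ^ j) hle ?_ x (by rw [← hN]; exact x.2)
      rintro y (hy | hy)
      · exact (HH.pow_mem hwH _) y (subset_adjoin _ _ hy)
      · apply Subtype.ext
        rw [← hWwn _ y hy, hWΦ, ← map_pow]
        exact hL2 _ hj _ hy
    have hpc : ¬ p ∣ Nat.card HH := by
      rintro ⟨q, hq⟩
      have h1 := hS (Nat.card HH : E) (Finset.mem_insert_self _ _)
      rw [hq, Nat.cast_mul, map_mul] at h1
      have h2 : O.valuation (q : E) ≤ 1 := by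
        rw [O.valuation_le_one_iff]
        exact natCast_mem O q
      have h3 := mul_lt_one_of_lt_of_le hdec.frob.residue h2
      rw [h1] at h3
      exact lt_irrefl _ h3
    have hw2 : (⟨w, hwH⟩ : HH) = 1 := by
      rw [← orderOf_eq_one_iff]
      have h1 : orderOf (⟨w, hwH⟩ : HH) ∣ p ^ j := by
        apply orderOf_dvd_of_pow_eq_one
        apply Subtype.ext
        exact hw1
      have h2 : orderOf (⟨w, hwH⟩ : HH) ∣ Nat.card HH := orderOf_dvd_natCard _
      have h3 : Nat.Coprime (p ^ j) (Nat.card HH) :=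
        Nat.Coprime.pow_left _ ((Nat.Prime.coprime_iff_not_dvd hdec.frob.prime).2 hpc)
      exact Nat.eq_one_of_dvd_coprimes h3 h1 h2
    have hw3 : w = 1 := congrArg Subtype.val hw2
    have h4 : (b0 ^ a) * ((b0 ^ a)⁻¹ * b1) = (b0 ^ a) * 1 := by rw [← hw3]
    rw [← mul_assoc, mul_inv_cancel, one_mul, mul_one] at h4
    exact h4
  have hcomm : ∀ x : N, φ (b0 (φ.symm x)) = (b0 ^ a) x := by
    intro x
    rw [← hb1a, hb01]
  have hcommi : ∀ (m : ℕ) (x : N), φ ((b0 ^ m) (φ.symm x)) = ((b0 ^ a) ^ m) x := by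
    intro m
    induction m with
    | zero => intro x; exact φ.apply_symm_apply x
    | succ m ih =>
      intro x
      have h1 : (b0 ^ (m + 1)) (φ.symm x) = (b0 ^ m) (φ.symm (φ (b0 (φ.symm x)))) := by
        rw [φ.symm_apply_apply, pow_succ, AlgEquiv.mul_apply]
      rw [h1, ih, hcomm, pow_succ, AlgEquiv.mul_apply]
  -- the second fixed place
  let Q' : Place E N :=
    { ring := Q.ring.comap φ.symm.toRingHom
      algebraMap_mem := fun e => by
        change φ.symm (algebraMap E N e) ∈ Q.ring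
        rw [hφsE]
        exact Q.algebraMap_mem _
      ne_top := by
        intro htop
        apply Q.ne_top
        rw [eq_top_iff]
        intro x _
        have h1 : φ x ∈ Q.ring.comap φ.symm.toRingHom := by
          rw [htop]
          trivial
        have h2 : φ.symm (φ x) ∈ Q.ring := h1
        rwa [φ.symm_apply_apply] at h2 }
  have hQ' : ∀ x : N, x ∈ Q'.ring ↔ φ.symm x ∈ Q.ring := fun x => Iff.rfl
  have hiH : b0 ^ i ∈ HH := HH.pow_mem hb0H i
  have hbir : ∀ x : N, (x : U) = r → (b0 ^ i) x = algebraMap E N (ξ ^ i) * x := hbrm i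
  have hZ4N : ∀ z ∈ Z4 ⟨ℓ, hℓn⟩, z ∈ N := fun z hz =>
    hZN z (hZZ' (Finset.mem_biUnion.2 ⟨⟨ℓ, hℓn⟩, Finset.mem_univ _, hz⟩))
  have hQQ := hZ4 ⟨ℓ, hℓn⟩ N hMN hZ4N hff (b0 ^ i) hiH hb1l (by
    intro x hx h1
    rw [hbir x hx] at h1
    have hx0 : x ≠ 0 := by
      rintro rfl
      exact hr0 hx.symm
    have h2 : algebraMap E N (ξ ^ i) = 1 := by
      apply mul_right_cancel₀ hx0
      rw [h1, one_mul]
    exact hξi ((map_eq_one_iff _ (algebraMap E N).injective).1 h2)) Q Q' hQ (by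
    -- `b0 ^ i` is a power of `(b0 ^ i) ^ a`
    have hal : a.Coprime ℓ := Nat.Coprime.coprime_dvd_right (Nat.dvd_of_mem_primeFactors hℓn) hac
    obtain ⟨t, -, ht⟩ := Nat.exists_mul_mod_eq_one_of_coprime hal hℓ.one_lt
    have h1 : b0 ^ i = ((b0 ^ a) ^ i) ^ t := by
      have e1 : ((b0 ^ a) ^ i) ^ t = (b0 ^ i) ^ (a * t) := by
        rw [← pow_mul, ← pow_mul, ← pow_mul]
        congr 1
        ring
      rw [e1, ← Nat.div_add_mod (a * t) ℓ, ht, pow_succ, pow_mul, hb1l, one_pow, one_mul]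
    have h2 : ∀ x ∈ Q'.ring, ((b0 ^ a) ^ i) x ∈ Q'.ring := by
      intro x hx
      rw [hQ'] at hx ⊢
      rw [← hcommi, φ.symm_apply_apply]
      exact hQ _ hx
    have h3 : ∀ (t : ℕ), ∀ x ∈ Q'.ring, (((b0 ^ a) ^ i) ^ t) x ∈ Q'.ring := by
      intro t
      induction t with
      | zero => intro x hx; exact hx
      | succ t ih =>
        intro x hx
        rw [pow_succ, AlgEquiv.mul_apply]
        exact ih _ (h2 x hx)
    intro x hx
    rw [h1]
    exact h3 t x hx)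
  refine branch99 hn0 geo.rpow hr0 hff hMN hiH hℓ.pos hb1l hξi hbir hQ F φ hφE ?_ fun x hx => ?_
  · rintro x ⟨y, hy⟩
    apply Subtype.ext
    rw [hφ, ← hy, hΦ.fixK]
  · rw [← hQ']
    exact hQQ x hx

end

end Pool.Agent.LN
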